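import Mathlib

set_option autoImplicit false

namespace Pool.Agent.H.MP_6c6968_al

def R (l : ℚ) : ℕ → ℚ → ℕ → Prop
  | 0, y, _ => y = 0
  | j + 1, y, w => ∃ (d : ℤ) (y' : ℚ) (w' : ℕ), y = d + l * y' ∧ d.natAbs + w' ≤ w ∧ R l j y' w'

variable {l : ℚ}

theorem R_zero (j w : ℕ) : R l j 0 w := by
  induction j with
  | zero => rfl
  | succ j ih => exact ⟨0, 0, w, by simp, by simp, ih⟩

theorem R.mono_w {j : ℕ} {N : ℚ} {w w' : ℕ} (h : R l j N w) (hw : w ≤ w') : R l j N w' := by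
  cases j with
  | zero => exact h
  | succ j =>
    obtain ⟨d, N', w0, h1, h2, h3⟩ := h
    exact ⟨d, N', w0, h1, h2.trans hw, h3⟩

theorem R.succ {j : ℕ} : ∀ {N : ℚ} {w : ℕ}, R l j N w → R l (j + 1) N w := by
  induction j with
  | zero => intro N w h; rw [show N = 0 from h]; exact R_zero _ _
  | succ j ih =>
    rintro N w ⟨d, N', w0, h1, h2, h3⟩
    exact ⟨d, N', w0, h1, h2, ih h3⟩

theorem R.mono_j {j j' : ℕ} {N : ℚ} {w : ℕ} (h : R l j N w) (hj : j ≤ j') : R l j' N w := by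
  induction hj with
  | refl => exact h
  | step _ ih => exact ih.succ

theorem R.add {j : ℕ} : ∀ {N N' : ℚ} {w w' : ℕ}, R l j N w → R l j N' w' →
    R l j (N + N') (w + w') := by
  induction j with
  | zero => intro N N' w w' h h'; rw [show N = 0 from h, show N' = 0 from h']; exact add_zero _
  | succ j ih =>
    rintro N N' w w' ⟨d, M, w0, h1, h2, h3⟩ ⟨d', M', w0', h1', h2', h3'⟩
    refine ⟨d + d', M + M', w0 + w0', by rw [h1, h1']; push_cast; ring, ?_, ih h3 h3'⟩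
    have := Int.natAbs_add_le d d'
    omega

theorem R.shift {j : ℕ} {N : ℚ} {w : ℕ} (h : R l j N w) : R l (j + 1) (l * N) w :=
  ⟨0, N, w, by simp, by simp, h⟩

theorem R_single (c : ℤ) (i : ℕ) : R l (i + 1) (c * l ^ i) c.natAbs := by
  induction i with
  | zero => exact ⟨c, 0, 0, by simp, by simp, rfl⟩
  | succ i ih =>
    have := ih.shift
    rwa [show l * (c * l ^ i) = c * l ^ (i + 1) by ring] at this

theorem R.add_single {j : ℕ} {y : ℚ} {w : ℕ} (h : R l j y w) (c : ℤ) (i : ℕ) (hi : i < j) :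
    R l j (y + c * l ^ i) (w + c.natAbs) := h.add ((R_single c i).mono_j hi)

theorem R.bound (hl : 1 ≤ l) {j : ℕ} : ∀ {N : ℚ} {w : ℕ}, R l j N w → |N| ≤ w * l ^ j := by
  induction j with
  | zero => intro N w h; rw [show N = 0 from h]; simp
  | succ j ih =>
    rintro N w ⟨d, N', w0, h1, h2, h3⟩
    have a1 := ih h3
    have a3 : 1 ≤ l ^ (j + 1) := one_le_pow₀ hl
    have a4 : |(d : ℚ)| = d.natAbs := by rw [Nat.cast_natAbs]; push_cast; rfl
    have a5 : (d.natAbs : ℚ) + w0 ≤ w := by exact_mod_cast h2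
    calc |N| ≤ |(d : ℚ)| + |l * N'| := by rw [h1]; exact abs_add_le _ _
      _ = d.natAbs + l * |N'| := by rw [a4, abs_mul, abs_of_pos (by linarith : 0 < l)]
      _ ≤ d.natAbs * l ^ (j + 1) + l * (w0 * l ^ j) := by
        apply add_le_add
        · exact le_mul_of_one_le_right (by positivity) a3
        · exact mul_le_mul_of_nonneg_left a1 (by linarith)
      _ = (d.natAbs + w0) * l ^ (j + 1) := by ring
      _ ≤ w * l ^ (j + 1) := mul_le_mul_of_nonneg_right a5 (by linarith)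

def Den (q : ℕ) : Subring ℚ where
  carrier := {y | ∃ (J : ℕ) (z : ℤ), y * (q : ℚ) ^ J = z}
  mul_mem' := by
    rintro a b ⟨J, z, h⟩ ⟨J', z', h'⟩
    exact ⟨J + J', z * z', by push_cast; rw [← h, ← h']; ring⟩
  one_mem' := ⟨0, 1, by simp⟩
  add_mem' := by
    rintro a b ⟨J, z, h⟩ ⟨J', z', h'⟩
    exact ⟨J + J', z * q ^ J' + z' * q ^ J, by push_cast; rw [← h, ← h']; ring⟩
  zero_mem' := ⟨0, 0, by simp⟩
  neg_mem' := by
    rintro a ⟨J, z, h⟩
    exact ⟨J, -z, by push_cast; rw [← h]; ring⟩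

variable {p q : ℕ}

theorem frac_mem (p q : ℕ) (hq : 0 < q) : (p : ℚ) / q ∈ Den q :=
  ⟨1, p, by have : (q : ℚ) ≠ 0 := by positivity
            push_cast; field_simp⟩

theorem den_dvd (hc : Nat.Coprime p q) (hp : 0 < p) (hq : 0 < q) (d : ℤ) (y : ℚ) (hy : y ∈ Den q)
    (h : (d : ℚ) = p / q * y) : ∃ e : ℤ, d = p * e ∧ y = q * e := by
  obtain ⟨J, z, hz⟩ := hy
  have q0 : (q : ℚ) ≠ 0 := by positivity
  have h1 : (d : ℚ) * q ^ (J + 1) = p * z := by rw [h, ← hz]; field_simp; ring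
  have h2 : d * (q : ℤ) ^ (J + 1) = p * z := by exact_mod_cast h1
  have h3 : (p : ℤ) ∣ d :=
    IsCoprime.dvd_of_dvd_mul_right (Nat.isCoprime_iff_coprime.2 hc).pow_right ⟨z, h2⟩
  obtain ⟨e, rfl⟩ := h3
  refine ⟨e, rfl, ?_⟩
  have p0 : (p : ℚ) ≠ 0 := by positivity
  push_cast at h
  field_simp at h
  linarith

theorem R.den (hq : 0 < q) {j : ℕ} : ∀ {y : ℚ} {w : ℕ}, R (p / q) j y w → y ∈ Den q := by
  induction j with
  | zero => intro y w h; rw [show y = 0 from h]; exact zero_mem _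
  | succ j ih =>
    rintro y w ⟨d, y', w0, h1, -, h3⟩
    rw [h1]
    exact add_mem (intCast_mem _ d) (mul_mem (frac_mem p q hq) (ih h3))

theorem R.den_top (hp : 0 < p) (hq : 0 < q) {j : ℕ} : ∀ {y : ℚ} {w : ℕ},
    R (p / q) (j + 1) y w → y * ((q : ℚ) / p) ^ j ∈ Den p := by
  induction j with
  | zero =>
    rintro y w ⟨d, y', w0, h1, -, h3⟩
    rw [h1, show y' = 0 from h3]
    simpa using intCast_mem (Den p) d
  | succ j ih =>
    rintro y w ⟨d, y', w0, h1, -, h3⟩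
    have : y * ((q : ℚ) / p) ^ (j + 1) = d * ((q : ℚ) / p) ^ (j + 1) + y' * ((q : ℚ) / p) ^ j := by
      have p0 : (p : ℚ) ≠ 0 := by positivity
      have q0 : (q : ℚ) ≠ 0 := by positivity
      rw [h1, pow_succ]; field_simp
    rw [this]
    exact add_mem (mul_mem (intCast_mem _ d) (pow_mem (frac_mem q p hp) _)) (ih h3)

theorem R.int_den (hq : 0 < q) {j : ℕ} : ∀ {y : ℚ} {w : ℕ}, R (p / q) j y w →
    ∃ z : ℤ, y * (q : ℚ) ^ j = z := by
  induction j with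
  | zero => intro y w h; exact ⟨0, by rw [show y = 0 from h]; simp⟩
  | succ j ih =>
    rintro y w ⟨d, y', w0, h1, -, h3⟩
    obtain ⟨z, hz⟩ := ih h3
    have q0 : (q : ℚ) ≠ 0 := by positivity
    refine ⟨d * q ^ (j + 1) + p * z, ?_⟩
    push_cast
    rw [h1, ← hz]; field_simp; ring

theorem R.step (hc : Nat.Coprime p q) (hp : 0 < p) (hq : 0 < q) {j : ℕ} {y : ℚ} {w : ℕ} (d : ℤ)
    (hy : y ∈ Den q) (h : R (p / q) (j + 1) (d + p / q * y) w) :
    ∃ (e : ℤ) (w' : ℕ), (d + p * e).natAbs + w' ≤ w ∧ R (p / q) j (y - q * e) w' := by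
  obtain ⟨d0, y', w0, h1, h2, h3⟩ := h
  obtain ⟨e, e1, e2⟩ := den_dvd hc hp hq (d0 - d) (y - y') (sub_mem hy (h3.den hq))
    (by push_cast; linear_combination -h1)
  refine ⟨e, w0, by rw [← e1]; simpa using h2, ?_⟩
  rwa [← e2, sub_sub_cancel]

theorem R.down (hc : Nat.Coprime p q) (hq : 0 < q) (hpq : q < p) {j : ℕ} {y : ℚ} {w : ℕ}
    (hy : y ∈ Den q) (h : R (p / q) (j + 2) (p / q * y) w) : R (p / q) (j + 1) y w := by
  obtain ⟨e, w', h1, h2⟩ := R.step hc (by omega) hq 0 hy (by simpa using h)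
  have := h2.add_single (q * e) 0 (by omega)
  simp only [pow_zero, mul_one, Int.cast_mul, Int.cast_natCast, sub_add_cancel] at this
  refine this.mono_w ?_
  rw [zero_add, Int.natAbs_mul, Int.natAbs_natCast] at h1
  rw [Int.natAbs_mul, Int.natAbs_natCast]
  have := Nat.mul_le_mul_right e.natAbs hpq.le
  omega

theorem R.down_pow (hc : Nat.Coprime p q) (hq : 0 < q) (hpq : q < p) {j : ℕ} {y : ℚ} {w : ℕ}
    (hy : y ∈ Den q) (r : ℕ) (h : R (p / q) (r + j + 1) (y * (p / q) ^ r) w) :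
    R (p / q) (j + 1) y w := by
  induction r with
  | zero => simpa using h
  | succ r ih =>
    apply ih
    apply R.down hc hq hpq (mul_mem hy (pow_mem (frac_mem p q hq) _))
    rw [show r + 1 + j + 1 = r + j + 2 by ring, pow_succ] at h
    rwa [show (p : ℚ) / q * (y * (p / q) ^ r) = y * ((p / q) ^ r * (p / q)) by ring]

theorem R.two (hc : Nat.Coprime p q) (hq : 0 < q) (hpq : q < p) {j : ℕ} {y : ℚ} {w : ℕ}
    (hy : y ∈ Den q) (h : R (p / q) (j + 3) (1 + p / q * (p / q * y)) w) :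
    ∃ w', w' + 1 ≤ w ∧ R (p / q) (j + 1) y w' := by
  obtain ⟨e, w0, h1, h2⟩ := R.step hc (by omega) hq 1 (mul_mem (frac_mem p q hq) hy)
    (by simpa using h)
  obtain ⟨f, w1, h3, h4⟩ := R.step hc (by omega) hq (-(q * e)) hy
    (by push_cast; rwa [neg_add_eq_sub])
  have := h4.add_single (q * f) 0 (by omega)
  simp only [pow_zero, mul_one, Int.cast_mul, Int.cast_natCast, sub_add_cancel] at this
  refine ⟨_, ?_, this⟩
  have b0 : (q + 1) * e.natAbs ≤ p * e.natAbs := Nat.mul_le_mul_right _ hpq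
  have b1 : (q + 1) * f.natAbs ≤ p * f.natAbs := Nat.mul_le_mul_right _ hpq
  rw [add_mul, one_mul] at b0 b1
  have c0 : (p * e).natAbs = p * e.natAbs := by rw [Int.natAbs_mul, Int.natAbs_natCast]
  have c1 : (p * f).natAbs = p * f.natAbs := by rw [Int.natAbs_mul, Int.natAbs_natCast]
  have c2 : (q * e).natAbs = q * e.natAbs := by rw [Int.natAbs_mul, Int.natAbs_natCast]
  have c3 : (q * f).natAbs = q * f.natAbs := by rw [Int.natAbs_mul, Int.natAbs_natCast]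
  have b2 : e = 0 → p * e = 0 ∧ q * e = 0 := by intro h; simp [h]
  have b3 : f = 0 → p * f = 0 ∧ q * f = 0 := by intro h; simp [h]
  have b4 : e.natAbs ≤ q * e.natAbs := Nat.le_mul_of_pos_left _ hq
  rw [← c0, ← c2] at b0
  rw [← c1, ← c3] at b1
  rw [← c2] at b4
  clear c0 c1 c2 c3
  generalize (p : ℤ) * e = u at *
  generalize (p : ℤ) * f = v at *
  generalize (q : ℤ) * e = u' at *
  generalize (q : ℤ) * f = v' at *
  omega

def Q (l : ℚ) (y : ℚ) (s : ℕ) : Prop := ∃ β w : ℕ, R l (β + 1) y w ∧ 2 * β + w ≤ s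

theorem Q_small (hq : 0 < q) (hpq : q < p) (M : ℕ) (hM : 6 * p ≤ M) :
    ∃ s, s + 4 ≤ M ∧ Q (p / q) M s := by
  have e := Nat.mod_add_div M p
  have h6 : 6 ≤ M / p := (Nat.le_div_iff_mul_le (by omega)).2 hM
  have b0 : (q + 1) * (M / p) ≤ p * (M / p) := Nat.mul_le_mul_right _ hpq
  rw [add_mul, one_mul] at b0
  refine ⟨2 + M % p + q * (M / p), by omega, 1, M % p + q * (M / p), ?_, by omega⟩
  refine ⟨(M % p : ℕ), (q * (M / p) : ℕ), q * (M / p), ?_, by rw [Int.natAbs_natCast], (q * (M / p) : ℕ), 0, 0,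
    by rw [Int.cast_natCast, mul_zero, add_zero], by rw [Int.natAbs_natCast]; omega, rfl⟩
  have q0 : (q : ℚ) ≠ 0 := by positivity
  have : (M : ℚ) = (M % p : ℕ) + p * (M / p : ℕ) := by exact_mod_cast e.symm
  rw [Int.cast_natCast, Nat.cast_mul]
  conv_lhs => rw [this]
  field_simp

theorem Q_step (hc : Nat.Coprime p q) (hq : 0 < q) (hpq : q < p) (v : ℕ) (hM : 6 * p ≤ q ^ 2 * v)
    (s : ℕ) (h : Q (p / q) (1 + p ^ 2 * v : ℕ) s) :
    ∃ s', s' + 5 ≤ s ∧ Q (p / q) (q ^ 2 * v : ℕ) s' := by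
  have q0 : (0 : ℚ) < q := by positivity
  have e : ((1 + p ^ 2 * v : ℕ) : ℚ) = 1 + p / q * (p / q * (q ^ 2 * v : ℕ)) := by
    push_cast; field_simp
  obtain ⟨β, w, h1, h2⟩ := h
  rw [e] at h1
  by_cases hβ : 2 ≤ β
  · obtain ⟨j, rfl⟩ := Nat.exists_eq_add_of_le' hβ
    obtain ⟨w', a1, a2⟩ := R.two hc hq hpq (natCast_mem _ _) h1
    exact ⟨2 * j + w', by omega, j, w', a2, le_rfl⟩
  · have l1 : (1 : ℚ) ≤ p / q := by rw [le_div_iff₀ q0, one_mul]; exact_mod_cast hpq.le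
    have := (h1.mono_j (show β + 1 ≤ 2 by omega)).bound l1
    obtain ⟨s', a1, a2⟩ := Q_small hq hpq _ hM
    refine ⟨s', ?_, a2⟩
    have h3 : ((q ^ 2 * v : ℕ) : ℚ) < w := by
      by_contra hc
      push Not at hc
      have h4 := le_abs_self (1 + p / q * (p / q * ((q ^ 2 * v : ℕ) : ℚ)))
      have h5 : (w : ℚ) * (p / q) ^ 2 ≤ (q ^ 2 * v : ℕ) * (p / q) ^ 2 :=
        mul_le_mul_of_nonneg_right hc (by positivity)
      nlinarith
    have : q ^ 2 * v < w := by exact_mod_cast h3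
    omega

theorem chain (hc : Nat.Coprime p q) (hq : 0 < q) (hpq : q < p) (j : ℕ) : ∀ M : ℕ, 6 * p ≤ M →
    (q : ℤ) ^ (2 * j) ∣ (p ^ 2 - q ^ 2) * M + q ^ 2 →
    ∃ M0 : ℕ, ((p ^ 2 - q ^ 2) * M0 + q ^ 2 : ℤ) * q ^ (2 * j) =
        p ^ (2 * j) * ((p ^ 2 - q ^ 2) * M + q ^ 2) ∧
      ∀ s, Q (p / q) M0 s → ∃ s', s' + 5 * j ≤ s ∧ Q (p / q) M s' := by
  induction j with
  | zero => intro M _ _; exact ⟨M, by simp, fun s h => ⟨s, by simp, h⟩⟩
  | succ j ih =>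
    intro M hM hd
    have d1 : (q : ℤ) ^ 2 ∣ p ^ 2 * M := by
      have : (q : ℤ) ^ 2 ∣ (p ^ 2 - q ^ 2) * M + q ^ 2 :=
        (pow_dvd_pow _ (by omega)).trans hd
      obtain ⟨c, hc⟩ := this
      exact ⟨c + M - 1, by linear_combination hc⟩
    have d2 : (q : ℤ) ^ 2 ∣ M :=
      IsCoprime.dvd_of_dvd_mul_left (Nat.isCoprime_iff_coprime.2 hc.symm).pow d1
    have d3 : q ^ 2 ∣ M := by exact_mod_cast d2
    obtain ⟨v, rfl⟩ := d3
    have le1 : q ^ 2 * v ≤ p ^ 2 * v := Nat.mul_le_mul_right _ (Nat.pow_le_pow_left hpq.le 2)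
    obtain ⟨c, hc'⟩ := hd
    have q0 : (q : ℤ) ^ 2 ≠ 0 := by positivity
    have k1 : ((p ^ 2 - q ^ 2) * v + 1 : ℤ) = q ^ (2 * j) * c := by
      apply mul_left_cancel₀ q0
      push_cast at hc'
      linear_combination hc'
    obtain ⟨M0, a1, a2⟩ := ih (1 + p ^ 2 * v) (by omega) ⟨p ^ 2 * c, by
      push_cast; linear_combination (p : ℤ) ^ 2 * k1⟩
    refine ⟨M0, ?_, ?_⟩
    · push_cast at a1 ⊢
      linear_combination (q : ℤ) ^ 2 * a1
    · intro s hs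
      obtain ⟨s1, b1, b2⟩ := a2 s hs
      obtain ⟨s2, b3, b4⟩ := Q_step hc hq hpq v hM s1 b2
      exact ⟨s2, by omega, b4⟩

theorem chain_exists (hc : Nat.Coprime p q) (hq : 0 < q) (hpq : q < p) (j : ℕ) (hj : 1 ≤ j) :
    ∃ v M M0 : ℕ, 3 ≤ v ∧ q ^ (2 * j + 1) * v < M ∧ M0 < p ^ (2 * j + 1) * v ∧
      ∀ s, Q (p / q) M0 s → ∃ s', s' + 5 * j ≤ s ∧ Q (p / q) M s' := by
  have co : IsCoprime ((p : ℤ) ^ 2 - q ^ 2) ((q : ℤ) ^ (2 * j)) := by
    apply IsCoprime.pow_right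
    have := (Nat.isCoprime_iff_coprime.2 hc).pow_left (m := 2)
    have h2 := this.add_mul_left_left (-(q : ℤ))
    rwa [show (p : ℤ) ^ 2 + q * -q = p ^ 2 - q ^ 2 by ring] at h2
  obtain ⟨a, b, hab⟩ := co
  obtain ⟨v, hv⟩ : ∃ v, v = 6 * p := ⟨_, rfl⟩
  have Q0 : (0 : ℤ) < q ^ (2 * j) := by positivity
  obtain ⟨B, hB⟩ : ∃ B, B = q ^ (2 * j + 1) * v := ⟨_, rfl⟩
  have r0 := Int.emod_nonneg (-a * q ^ 2 - B - 1) Q0.ne'
  have r1 := Int.emod_lt_of_pos (-a * q ^ 2 - B - 1) Q0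
  have r2 := Int.emod_add_mul_ediv (-a * q ^ 2 - B - 1) (q ^ (2 * j))
  obtain ⟨r, hr⟩ := Int.eq_ofNat_of_zero_le r0
  rw [hr] at r1 r2
  have vB : v ≤ B := by rw [hB]; exact Nat.le_mul_of_pos_left _ (by positivity)
  obtain ⟨M0, a1, a2⟩ := chain hc hq hpq j (B + 1 + r) (by omega)
    ⟨b * q ^ 2 - (p ^ 2 - q ^ 2) * ((-a * q ^ 2 - B - 1) / q ^ (2 * j)), by
      push_cast; linear_combination (p ^ 2 - q ^ 2 : ℤ) * r2 - q ^ 2 * hab⟩
  refine ⟨v, B + 1 + r, M0, by omega, by omega, ?_, a2⟩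
  have pq : (q : ℤ) + 1 ≤ p := by exact_mod_cast hpq
  have q1 : (1 : ℤ) ≤ q := by exact_mod_cast hq
  have E1 : (1 : ℤ) ≤ p ^ 2 - q ^ 2 := by nlinarith
  have P0 : (0 : ℤ) < p ^ (2 * j) := by have : 0 < p := by omega
                                        positivity
  have q2 : (q : ℤ) ^ 2 ≤ q ^ (2 * j) := pow_le_pow_right₀ q1 (by omega)
  have hB' : (B : ℤ) = q ^ (2 * j) * q * v := by rw [hB]; push_cast; ring
  have v3 : (3 : ℤ) ≤ v := by omega
  have goal : (M0 : ℤ) < p ^ (2 * j) * p * v := by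
    push_cast at a1
    generalize (p : ℤ) ^ (2 * j) = P at *
    generalize (q : ℤ) ^ (2 * j) = Q' at *
    generalize (p : ℤ) ^ 2 - q ^ 2 = E at *
    have s1 : E * (B + 1 + r) + q ^ 2 ≤ E * (Q' * (q * v + 2)) := by
      have : (B : ℤ) + 1 + r ≤ Q' * q * v + Q' := by omega
      have h1 : E * (B + 1 + r) ≤ E * (Q' * q * v + Q') :=
        mul_le_mul_of_nonneg_left this (by omega)
      have h2 : Q' ≤ E * Q' := le_mul_of_one_le_left Q0.le E1
      nlinarith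
    have s2 : (E * M0) * Q' ≤ P * (E * (Q' * (q * v + 2))) := by
      have h1 := mul_le_mul_of_nonneg_left s1 P0.le
      have h2 : 0 ≤ (q : ℤ) ^ 2 * Q' := by positivity
      nlinarith
    have s3 : (M0 : ℤ) ≤ P * (q * v + 2) := by
      have h1 : 0 < E * Q' := by positivity
      apply le_of_mul_le_mul_left _ h1
      nlinarith
    have s4 : (q : ℤ) * v + 2 < p * v := by nlinarith
    have := mul_lt_mul_of_pos_left s4 P0
    nlinarith
  have : (M0 : ℤ) < ((p ^ (2 * j + 1) * v : ℕ) : ℤ) := by push_cast; rw [pow_succ]; exact goal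
  exact_mod_cast this

end Pool.Agent.H.MP_6c6968_al
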