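import Pool.Agent.H.MP_6c6968_al.A
import Pool.Agent.H.MP_af8618_al.B

set_option autoImplicit false

namespace Pool.Agent.H.MP_6c6968_al

open Pool.Agent.H.MP_9b0338_al SimpleGraph
open Pool.Agent.H.MP_af8618_al (len_zpow zpow_lamp)

variable {G : Type} [Group G]

theorem dist_mul_le (S : Finset G) (hS : Subgroup.closure (S : Set G) = ⊤) (g u v : G) :
    (Cay S).dist (g * u) (g * v) ≤ (Cay S).dist u v := by
  let φ : Cay S →g Cay S := ⟨fun w => g * w, by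
    intro u v h
    obtain ⟨h1, h2⟩ := (adj_iff S u v).1 h
    refine (adj_iff _ _ _).2 ⟨by simpa using h1, ?_⟩
    simpa [mul_assoc] using h2⟩
  obtain ⟨p, hp⟩ := (conn S hS).exists_walk_length_eq_dist u v
  have := SimpleGraph.dist_le (p.map φ)
  rwa [Walk.length_map, hp] at this

theorem len_mul (S : Finset G) (hS : Subgroup.closure (S : Set G) = ⊤) (g h : G) :
    len S (g * h) ≤ len S g + len S h := by
  have h1 := (conn S hS).dist_triangle (u := 1) (v := g) (w := g * h)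
  have h2 := dist_mul_le S hS g 1 h
  rw [mul_one] at h2
  unfold len
  omega

theorem len_inv (S : Finset G) (hS : Subgroup.closure (S : Set G) = ⊤) (g : G) :
    len S g⁻¹ ≤ len S g := by
  have h2 := dist_mul_le S hS g⁻¹ g 1
  rw [mul_one, inv_mul_cancel, SimpleGraph.dist_comm (u := g)] at h2
  exact h2

structure Mod (S : Finset G) (a t : G) {x : ℚˣ} (φ : G →* Md x 1) : Prop where
  gen : Subgroup.closure (S : Set G) = ⊤
  mem : ∀ z, z ∈ S ↔ z = a ∨ z = t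
  inj : Function.Injective φ
  ha : φ a = ⟨0, 0, 1⟩
  ht : φ t = ⟨1, 0, 0⟩

variable {S : Finset G} {a t : G} {x : ℚˣ} {φ : G →* Md x 1}

theorem mon_eq (k j : ℤ) : mon x 1 k j = (x : ℚ) ^ k := by simp [mon]

theorem Mod.mul_a (H : Mod S a t φ) {g : G} {k : ℤ} {y : ℚ} (hg : φ g = ⟨k, 0, y⟩) (d : ℤ) :
    φ (g * a ^ d) = ⟨k, 0, y + d * (x : ℚ) ^ k⟩ ∧ len S (g * a ^ d) ≤ len S g + d.natAbs := by
  refine ⟨?_, len_zpow S H.gen a ((H.mem a).2 (Or.inl rfl)) g d⟩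
  rw [map_mul, map_zpow, hg, H.ha, zpow_lamp]
  ext <;> simp [mon_eq, mul_comm]

theorem Mod.mul_t (H : Mod S a t φ) {g : G} {k : ℤ} {y : ℚ} (hg : φ g = ⟨k, 0, y⟩) (d : ℤ) :
    φ (g * t ^ d) = ⟨k + d, 0, y⟩ ∧ len S (g * t ^ d) ≤ len S g + d.natAbs := by
  refine ⟨?_, len_zpow S H.gen t ((H.mem t).2 (Or.inr rfl)) g d⟩
  rw [map_mul, map_zpow, hg, H.ht, zpow_t]
  ext <;> simp

theorem Mod.up (H : Mod S a t φ) (j : ℕ) : ∀ (y : ℚ) (w : ℕ), R x j y w → ∀ (g : G) (k : ℤ) (z : ℚ),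
    φ g = ⟨k, 0, z⟩ → ∃ g', φ g' = ⟨k + j, 0, z + (x : ℚ) ^ k * y⟩ ∧ len S g' ≤ len S g + j + w := by
  induction j with
  | zero => intro y w hR g k z hg; exact ⟨g, by rw [show y = 0 from hR]; simpa using hg, by omega⟩
  | succ j ih =>
    rintro y w ⟨d, y', w', h1, h2, h3⟩ g k z hg
    obtain ⟨a1, a2⟩ := H.mul_a hg d
    obtain ⟨b1, b2⟩ := H.mul_t a1 1
    obtain ⟨g', c1, c2⟩ := ih y' w' h3 _ _ _ b1
    refine ⟨g', ?_, by simp only [Int.natAbs_one] at b2; omega⟩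
    rw [c1, h1, zpow_add_one₀ x.ne_zero]
    ext
    · push_cast; ring
    · rfl
    · ring

theorem Mod.down (H : Mod S a t φ) (j : ℕ) : ∀ (y : ℚ) (w : ℕ), R x j y w →
    ∀ (g : G) (k : ℤ) (z : ℚ), φ g = ⟨k + j, 0, z⟩ →
      ∃ g', φ g' = ⟨k, 0, z + (x : ℚ) ^ k * y⟩ ∧ len S g' ≤ len S g + j + w := by
  induction j with
  | zero => intro y w hR g k z hg; exact ⟨g, by rw [show y = 0 from hR]; simpa using hg, by omega⟩
  | succ j ih =>
    rintro y w ⟨d, y', w', h1, h2, h3⟩ g k z hg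
    obtain ⟨g', c1, c2⟩ := ih y' w' h3 g (k + 1) z (by rw [hg]; congr 1; push_cast; ring)
    obtain ⟨b1, b2⟩ := H.mul_t c1 (-1)
    obtain ⟨a1, a2⟩ := H.mul_a b1 d
    refine ⟨_, ?_, by simp only [Int.natAbs_neg, Int.natAbs_one] at b2; exact a2.trans (by omega)⟩
    rw [a1, h1, zpow_add_one₀ x.ne_zero, add_neg_cancel_right]
    ext
    · rfl
    · rfl
    · ring

theorem Mod.upper (H : Mod S a t φ) (α β w : ℕ) (k : ℤ) (y : ℚ) (h1 : -(α : ℤ) ≤ k) (h2 : k ≤ β)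
    (hR : R x (α + β + 1) (y * (x : ℚ) ^ α) w) :
    ∃ g, φ g = ⟨k, 0, y⟩ ∧ len S g + k.natAbs ≤ 2 * (α + β) + w + 2 := by
  have e : (0 : ℚ) + (x : ℚ) ^ (-(α : ℤ)) * (y * (x : ℚ) ^ α) = y := by
    have := x.ne_zero
    rw [zpow_neg, zpow_natCast]; field_simp; simp
  have o : φ 1 = ⟨0, 0, 0⟩ := map_one φ
  rcases le_total 0 k with h0 | h0
  · obtain ⟨a1, a2⟩ := H.mul_t o (-α)
    rw [zero_add] at a1
    obtain ⟨g', b1, b2⟩ := H.up _ _ _ hR _ _ _ a1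
    obtain ⟨c1, c2⟩ := H.mul_t b1 (k - β - 1)
    rw [len_one] at a2
    refine ⟨g' * t ^ (k - β - 1), ?_, by omega⟩
    rw [c1, e]; congr 1; push_cast; ring
  · obtain ⟨a1, a2⟩ := H.mul_t o (-(α : ℤ) + (α + β + 1 : ℕ))
    rw [zero_add] at a1
    obtain ⟨g', b1, b2⟩ := H.down _ _ _ hR _ _ _ a1
    obtain ⟨c1, c2⟩ := H.mul_t b1 (k + α)
    rw [len_one] at a2
    refine ⟨g' * t ^ (k + α), ?_, by omega⟩
    rw [c1, e]; congr 1; ring

theorem Mod.cases (H : Mod S a t φ) {u v : G} (huv : u⁻¹ * v ∈ S ∨ v⁻¹ * u ∈ S) :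
    ∃ e : ℤ, e.natAbs = 1 ∧ (v = u * a ^ e ∨ v = u * t ^ e) := by
  rw [H.mem, H.mem] at huv
  rcases huv with (e | e) | (e | e)
  · exact ⟨1, rfl, Or.inl (by rw [zpow_one]; exact inv_mul_eq_iff_eq_mul.1 e)⟩
  · exact ⟨1, rfl, Or.inr (by rw [zpow_one]; exact inv_mul_eq_iff_eq_mul.1 e)⟩
  · refine ⟨-1, rfl, Or.inl ?_⟩
    rw [inv_mul_eq_iff_eq_mul.1 e]; group
  · refine ⟨-1, rfl, Or.inr ?_⟩
    rw [inv_mul_eq_iff_eq_mul.1 e]; group

def P (φ : G →* Md x 1) (g : G) (s : ℕ) : Prop :=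
  ∃ (k : ℤ) (y : ℚ) (α β w : ℕ), φ g = ⟨k, 0, y⟩ ∧ -(α : ℤ) ≤ k ∧ k ≤ β ∧
    R x (α + β + 1) (y * (x : ℚ) ^ α) w ∧ 2 * (α + β) + w ≤ s + k.natAbs

theorem pow_shift (α r : ℕ) (k : ℤ) (hr : α + k = r) : (x : ℚ) ^ k * (x : ℚ) ^ α = (x : ℚ) ^ r := by
  rw [← zpow_natCast, ← zpow_natCast, ← zpow_add₀ x.ne_zero, ← hr, add_comm]

theorem Mod.P_step (H : Mod S a t φ) {u v : G} (huv : u⁻¹ * v ∈ S ∨ v⁻¹ * u ∈ S) {s : ℕ}
    (hP : P φ u s) : P φ v (s + 1) := by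
  obtain ⟨k, y, α, β, w, h1, h2, h3, h4, h5⟩ := hP
  obtain ⟨e, he, rfl | rfl⟩ := H.cases huv
  · obtain ⟨r, hr⟩ := Int.eq_ofNat_of_zero_le (show 0 ≤ α + k by omega)
    refine ⟨k, _, α, β, w + 1, (H.mul_a h1 e).1, h2, h3, ?_, by omega⟩
    have := h4.add_single e r (by omega)
    rwa [he, ← pow_shift α r k hr, ← mul_assoc, ← add_mul] at this
  · have a1 := (H.mul_t h1 e).1
    by_cases c1 : k + e ≤ β
    · by_cases c2 : -(α : ℤ) ≤ k + e
      · exact ⟨_, _, α, β, w, a1, c2, c1, h4, by omega⟩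
      · refine ⟨_, _, α + 1, β, w, a1, by push_cast; omega, c1, ?_, by omega⟩
        rw [show α + 1 + β + 1 = α + β + 1 + 1 by ring,
          show y * (x : ℚ) ^ (α + 1) = x * (y * x ^ α) by ring]
        exact h4.shift
    · exact ⟨_, _, α, β + 1, w, a1, by omega, by push_cast; omega, h4.succ, by omega⟩

theorem Mod.P_len (H : Mod S a t φ) (g : G) : P φ g (len S g) := by
  have key : ∀ (u v : G) (p : (Cay S).Walk u v) (s : ℕ), P φ u s → P φ v (s + p.length) := by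
    intro u v p
    induction p with
    | nil => intro s hs; exact hs
    | @cons u w v h p ih =>
      intro s hs
      rw [Walk.length_cons, show s + (p.length + 1) = s + 1 + p.length by ring]
      exact ih _ (H.P_step ((adj_iff S u w).1 h).2 hs)
  obtain ⟨p, hp⟩ := (conn S H.gen).exists_walk_length_eq_dist 1 g
  have := key 1 g p 0 ⟨0, 0, 0, 0, 0, map_one φ, by simp, by simp, by simpa using R_zero _ _,
    by simp⟩
  rwa [zero_add, hp] at this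

variable {p q : ℕ}

theorem Mod.phi_a (H : Mod S a t φ) (d : ℤ) : φ (a ^ d) = ⟨0, 0, d⟩ := by
  have := (H.mul_a (map_one φ) d).1
  simpa using this

theorem Mod.Q_of (H : Mod S a t φ) (hx : (x : ℚ) = p / q) (hc : Nat.Coprime p q) (hq : 0 < q)
    (hpq : q < p) (M : ℕ) : Q (p / q) M (len S (a ^ (M : ℤ))) := by
  obtain ⟨k, y, α, β, w, h1, h2, h3, h4, h5⟩ := H.P_len (a ^ (M : ℤ))
  rw [H.phi_a] at h1
  obtain ⟨rfl, -, rfl⟩ := Md.mk.inj h1
  rw [hx] at h4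
  exact ⟨β, w, by simpa using R.down_pow hc hq hpq (intCast_mem _ _) α h4, by simp only [Int.natAbs_zero] at h5; omega⟩

theorem Mod.of_Q (H : Mod S a t φ) (hx : (x : ℚ) = p / q) (M s : ℕ) (h : Q (p / q) M s) :
    len S (a ^ (M : ℤ)) ≤ s + 2 := by
  obtain ⟨β, w, h1, h2⟩ := h
  obtain ⟨g, a1, a2⟩ := H.upper 0 β w 0 M (by simp) (by simp) (by simpa [hx] using h1)
  have : g = a ^ (M : ℤ) := H.inj (by rw [a1, H.phi_a]; simp)
  rw [← this]
  omega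

theorem Mod.conj (H : Mod S a t φ) (d k : ℤ) :
    φ (t ^ k * a ^ d * t ^ (-k)) = ⟨0, 0, d * (x : ℚ) ^ k⟩ := by
  have a1 := (H.mul_t (map_one φ) k).1
  have a2 := (H.mul_a a1 d).1
  have a3 := (H.mul_t a2 (-k)).1
  simpa using a3

theorem Mod.len_t (H : Mod S a t φ) (k : ℤ) : len S (t ^ k) ≤ k.natAbs := by
  have := (H.mul_t (map_one φ) k).2
  simpa [len_one] using this

theorem Mod.len_conj (H : Mod S a t φ) (g : G) (k : ℤ) :
    len S (t ^ k * g * t ^ (-k)) ≤ len S g + 2 * k.natAbs := by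
  have a1 := len_mul S H.gen (t ^ k * g) (t ^ (-k))
  have a2 := len_mul S H.gen (t ^ k) g
  have a3 := H.len_t k
  have a4 := H.len_t (-k)
  omega

theorem Mod.not_mono (H : Mod S a t φ) (hx : (x : ℚ) = p / q) (hc : Nat.Coprime p q) (hq : 0 < q)
    (hpq : q < p) (C : ℕ) : ∃ M T : ℕ, M < T ∧ 3 ≤ T ∧
      len S (a ^ (T : ℤ)) + C < len S (a ^ (M : ℤ)) := by
  by_contra hc'
  push Not at hc'
  obtain ⟨v, M, M0, h1, h2, h3, h4⟩ := chain_exists hc hq hpq (2 * C + 5) (by omega)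
  obtain ⟨s', a1, a2⟩ := h4 _ (H.Q_of hx hc hq hpq M0)
  have a3 := H.of_Q hx M s' a2
  have l1 : v ≤ q ^ (2 * (2 * C + 5) + 1) * v := Nat.le_mul_of_pos_left _ (by positivity)
  have l2 : v ≤ p ^ (2 * (2 * C + 5) + 1) * v :=
    Nat.le_mul_of_pos_left _ (Nat.pow_pos (by omega))
  have b1 := hc' _ _ h3 (by omega)
  have b2 := hc' _ _ h2 (by omega)
  have e : a ^ ((p ^ (2 * (2 * C + 5) + 1) * v : ℕ) : ℤ) = t ^ ((2 * (2 * C + 5) + 1 : ℕ) : ℤ) *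
      a ^ ((q ^ (2 * (2 * C + 5) + 1) * v : ℕ) : ℤ) * t ^ (-((2 * (2 * C + 5) + 1 : ℕ) : ℤ)) := by
    apply H.inj
    rw [H.conj, H.phi_a, zpow_natCast, hx]
    congr 1
    have q0 : (q : ℚ) ≠ 0 := by positivity
    push_cast
    rw [div_pow]; field_simp
  have b3 := H.len_conj (a ^ ((q ^ (2 * (2 * C + 5) + 1) * v : ℕ) : ℤ))
    ((2 * (2 * C + 5) + 1 : ℕ) : ℤ)
  rw [← e, Int.natAbs_natCast] at b3
  omega

def Box (φ : G →* Md x 1) (n T : ℕ) : Set G :=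
  {g | ∃ (k : ℤ) (y : ℚ) (w : ℕ), φ g = ⟨k, 0, y⟩ ∧ k.natAbs ≤ n ∧
    R x (2 * n + 1) (y * (x : ℚ) ^ n) w ∧ |y| < T * (x : ℚ) ^ n}

theorem Mod.box_finite (H : Mod S a t φ) (hx : (x : ℚ) = p / q) (hp : 0 < p) (hq : 0 < q)
    (n T : ℕ) : (Box φ n T).Finite := by
  apply Set.Finite.of_finite_image _ H.inj.injOn
  obtain ⟨B, hB⟩ := exists_nat_gt ((T : ℚ) * (x : ℚ) ^ n * ((x : ℚ) ^ n * q ^ (2 * n + 1)))
  have x0 : (0 : ℚ) < x := by rw [hx]; positivity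
  refine (((Set.finite_Icc (-(n : ℤ)) n).prod (Set.finite_Icc (-(B : ℤ)) B)).image
    (fun z : ℤ × ℤ => (⟨z.1, 0, z.2 / ((x : ℚ) ^ n * q ^ (2 * n + 1))⟩ : Md x 1))).subset ?_
  rintro _ ⟨g, ⟨k, y, w, h1, h2, h3, h4⟩, rfl⟩
  obtain ⟨z, hz⟩ := R.int_den (p := p) hq (by rw [← hx]; exact h3)
  have pos : 0 < (x : ℚ) ^ n * q ^ (2 * n + 1) := by positivity
  have hz2 : |(z : ℚ)| < B := by
    rw [← hz, mul_assoc, abs_mul, abs_of_pos pos]
    exact (mul_lt_mul_of_pos_right h4 pos).trans hB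
  have hz3 : |z| < B := by exact_mod_cast hz2
  rw [abs_lt] at hz3
  refine ⟨(k, z), ⟨⟨by omega, by omega⟩, ⟨by omega, by omega⟩⟩, ?_⟩
  rw [h1]
  simp only
  congr 1
  rw [← hz]; field_simp

theorem not_den (hc : Nat.Coprime p q) (hp : 2 ≤ p) (hq : 0 < q) (σ : ℤ) (hσ : σ.natAbs = 1)
    (h : (σ : ℚ) * (q / p) ∈ Den q) : False := by
  have p0 : (p : ℚ) ≠ 0 := by positivity
  have q0 : (q : ℚ) ≠ 0 := by positivity
  obtain ⟨e, h1, -⟩ := den_dvd hc (by omega) hq σ _ h (by field_simp)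
  have := congrArg Int.natAbs h1
  rw [hσ, Int.natAbs_mul, Int.natAbs_natCast] at this
  have := Nat.eq_one_of_mul_eq_one_right this.symm
  omega

theorem Mod.cursor_exit (H : Mod S a t φ) (hx : (x : ℚ) = p / q) (hc : Nat.Coprime p q)
    (hq : 2 ≤ q) (hpq : q < p) (n T : ℕ) (hT : 3 ≤ T) (u : G) (k : ℤ) (y : ℚ) (w : ℕ)
    (h1 : φ u = ⟨k, 0, y⟩) (h2 : k.natAbs = n + 1)
    (h3 : R x (2 * (n + 1) + 1) (y * (x : ℚ) ^ (n + 1)) w) (h4 : |y| < T * (x : ℚ) ^ (n + 1)) :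
    ∃ g ∈ Box φ (n + 1) T, len S u + (n + 1) ≤ len S g + 4 := by
  have p0 : (0 : ℚ) < p := by have : 0 < p := by omega
                              positivity
  have q0 : (0 : ℚ) < q := by positivity
  have x1 : (1 : ℚ) ≤ x := by rw [hx, le_div_iff₀ q0, one_mul]; exact_mod_cast hpq.le
  have x0 : (0 : ℚ) < x := by linarith
  have xi : (q : ℚ) / p = (x : ℚ)⁻¹ := by rw [hx, inv_div]
  have mq : (x : ℚ) ∈ Den q := by rw [hx]; exact frac_mem p q (by omega)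
  have mp : (x : ℚ)⁻¹ ∈ Den p := by rw [← xi]; exact frac_mem q p (by omega)
  obtain ⟨σ, hσ, hs⟩ : ∃ σ : ℤ, σ.natAbs = 1 ∧ ∀ c : ℚ, 0 ≤ c → c ≤ 2 * (x : ℚ) ^ (n + 1) →
      |y + σ * c| < T * (x : ℚ) ^ (n + 1) := by
    have t3 : 3 * (x : ℚ) ^ (n + 1) ≤ T * (x : ℚ) ^ (n + 1) :=
      mul_le_mul_of_nonneg_right (by exact_mod_cast hT) (by positivity)
    have t0 : 0 < (x : ℚ) ^ (n + 1) := by positivity
    rw [abs_lt] at h4
    rcases le_total 0 y with h0 | h0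
    · exact ⟨-1, rfl, fun c c0 c1 => by rw [abs_lt]; push_cast; constructor <;> linarith⟩
    · exact ⟨1, rfl, fun c c0 c1 => by rw [abs_lt]; push_cast; constructor <;> linarith⟩
  obtain ⟨e1, he1, n1⟩ : ∃ e1 : ℕ, e1 ≤ 1 ∧
      (y + σ * (e1 * (x : ℚ)⁻¹ ^ (n + 1))) * (x : ℚ) ^ n ∉ Den q := by
    by_cases hm : y * (x : ℚ) ^ n ∈ Den q
    · refine ⟨1, le_rfl, fun hh => not_den hc (by omega) (by omega) σ hσ ?_⟩
      have := sub_mem hh hm
      convert this using 1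
      rw [xi, inv_pow]; field_simp; ring
    · exact ⟨0, by omega, by simpa using hm⟩
  obtain ⟨e2, he2, n2⟩ : ∃ e2 : ℕ, e2 ≤ 1 ∧
      (y + σ * (e2 * (x : ℚ) ^ (n + 1))) * (x : ℚ)⁻¹ ^ n ∉ Den p := by
    by_cases hm : y * (x : ℚ)⁻¹ ^ n ∈ Den p
    · refine ⟨1, le_rfl, fun hh => not_den hc.symm hq (by omega) σ hσ ?_⟩
      have := sub_mem hh hm
      convert this using 1
      rw [← hx, inv_pow]; field_simp; ring
    · exact ⟨0, by omega, by simpa using hm⟩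
  obtain ⟨y', hy'⟩ : ∃ y', y' = y + σ * (e1 * (x : ℚ)⁻¹ ^ (n + 1) + e2 * (x : ℚ) ^ (n + 1)) :=
    ⟨_, rfl⟩
  have s1 : (σ * e1).natAbs ≤ 1 := by rw [Int.natAbs_mul, hσ, Int.natAbs_natCast]; omega
  have s2 : (σ * e2).natAbs ≤ 1 := by rw [Int.natAbs_mul, hσ, Int.natAbs_natCast]; omega
  have r1 : R x (2 * (n + 1) + 1) (y' * (x : ℚ) ^ (n + 1)) (w + (σ * e1).natAbs + (σ * e2).natAbs) := by
    have := (h3.add_single (σ * e1) 0 (by omega)).add_single (σ * e2) (2 * (n + 1)) (by omega)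
    convert this using 1
    rw [hy', inv_pow]; push_cast; field_simp; ring
  have r2 : |y'| < T * (x : ℚ) ^ (n + 1) := by
    rw [hy']
    apply hs _ (by positivity)
    have a1 : (e1 : ℚ) ≤ 1 := by exact_mod_cast he1
    have a2 : (e2 : ℚ) ≤ 1 := by exact_mod_cast he2
    have a3 : (x : ℚ)⁻¹ ^ (n + 1) ≤ 1 := pow_le_one₀ (by positivity) (inv_le_one_of_one_le₀ x1)
    have a4 : 1 ≤ (x : ℚ) ^ (n + 1) := one_le_pow₀ x1
    have a5 : 0 ≤ (x : ℚ)⁻¹ ^ (n + 1) := by positivity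
    nlinarith
  obtain ⟨g, g1, -⟩ := H.upper (n + 1) (n + 1) _ 0 y' (by omega) (by omega)
    (by rw [← two_mul]; exact r1)
  refine ⟨g, ⟨0, y', _, g1, by simp, r1, r2⟩, ?_⟩
  obtain ⟨k', y'', α, β, w', b1, -, -, b4, b5⟩ := H.P_len g
  rw [g1] at b1
  obtain ⟨rfl, -, rfl⟩ := Md.mk.inj b1
  have hα : n + 1 ≤ α := by
    by_contra hh
    obtain ⟨r, hr⟩ : ∃ r, n = α + r := ⟨n - α, by omega⟩
    apply n1
    have m1 : y' * (x : ℚ) ^ α ∈ Den q := R.den (p := p) (by omega) (by rw [← hx]; exact b4)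
    have m2 := sub_mem (mul_mem m1 (pow_mem mq r))
      (mul_mem (intCast_mem _ (σ * e2)) (pow_mem mq (n + 1 + n)))
    convert m2 using 1
    rw [mul_assoc y', ← pow_add, ← hr, hy']; push_cast; ring
  have hβ : n + 1 ≤ β := by
    by_contra hh
    obtain ⟨r, hr⟩ : ∃ r, n = β + r := ⟨n - β, by omega⟩
    apply n2
    have m1 := R.den_top (p := p) (q := q) (by omega) (by omega) (by rw [← hx]; exact b4)
    rw [xi] at m1
    have m2 := sub_mem (mul_mem m1 (pow_mem mp r))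
      (mul_mem (intCast_mem _ (σ * e1)) (pow_mem mp (n + 1 + n)))
    convert m2 using 1
    have : y' * (x : ℚ) ^ α * (x : ℚ)⁻¹ ^ (α + β) * (x : ℚ)⁻¹ ^ r = y' * (x : ℚ)⁻¹ ^ n := by
      rw [hr, pow_add, pow_add, inv_pow _ α]; field_simp
    rw [this, hy']; push_cast; ring
  obtain ⟨r, rfl⟩ := Nat.exists_eq_add_of_le hα
  have r3 := (b4.add_single (-(σ * e1)) r (by omega)).add_single (-(σ * e2)) (2 * (n + 1) + r)
    (by omega)
  have e : y' * (x : ℚ) ^ (n + 1 + r) + ((-(σ * e1) : ℤ) : ℚ) * (x : ℚ) ^ r +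
      ((-(σ * e2) : ℤ) : ℚ) * (x : ℚ) ^ (2 * (n + 1) + r) = y * (x : ℚ) ^ (n + 1 + r) := by
    rw [hy', inv_pow]; push_cast; field_simp; ring
  rw [e] at r3
  obtain ⟨u', c1, c2⟩ := H.upper _ _ _ k y (by omega) (by omega) r3
  have : u' = u := H.inj (by rw [c1, h1])
  rw [this, Int.natAbs_neg, Int.natAbs_neg] at c2
  simp only [Int.natAbs_zero] at b5
  omega

theorem Mod.main (H : Mod S a t φ) (hx : (x : ℚ) = p / q) (hc : Nat.Coprime p q)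
    (hq : 2 ≤ q) (hpq : q < p) (D : ℕ) :
    ∃ g : G, {v | ∃ p : (Cay S).Walk g v, ∀ u ∈ p.support, len S g ≤ len S u + D}.Finite := by
  have q0 : (0 : ℚ) < q := by positivity
  have x1 : (1 : ℚ) ≤ x := by rw [hx, le_div_iff₀ q0, one_mul]; exact_mod_cast hpq.le
  have x0 : (0 : ℚ) < x := by linarith
  obtain ⟨n, hn⟩ : ∃ n, n = D + 4 := ⟨_, rfl⟩
  obtain ⟨C, hC⟩ := ((H.box_finite hx (by omega) (by omega) (n + 1) 2).image (len S)).bddAbove
  obtain ⟨M, T, m1, m2, m3⟩ := H.not_mono hx hc (by omega) hpq (4 * (n + 1) + C + D)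
  have fin := H.box_finite hx (by omega) (by omega) (n + 1) T
  have xn : 0 < (x : ℚ) ^ (n + 1) := by positivity
  have g0 : t ^ ((n + 1 : ℕ) : ℤ) * a ^ (M : ℤ) * t ^ (-((n + 1 : ℕ) : ℤ)) ∈ Box φ (n + 1) T := by
    refine ⟨0, _, (M : ℤ).natAbs, H.conj _ _, by simp, ?_, ?_⟩
    · rw [zpow_natCast, mul_assoc, ← pow_add, ← two_mul]
      exact R_single _ _
    · rw [zpow_natCast, Int.cast_natCast, abs_of_nonneg (by positivity)]
      exact mul_lt_mul_of_pos_right (by exact_mod_cast m1) xn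
  obtain ⟨g, hg, hmax⟩ := Set.exists_max_image _ (len S) fin ⟨_, g0⟩
  have l0 := hmax _ g0
  have l1 := H.len_conj (t ^ ((n + 1 : ℕ) : ℤ) * a ^ (M : ℤ) * t ^ (-((n + 1 : ℕ) : ℤ)))
    (-((n + 1 : ℕ) : ℤ))
  rw [show t ^ (-((n + 1 : ℕ) : ℤ)) * (t ^ ((n + 1 : ℕ) : ℤ) * a ^ (M : ℤ) *
    t ^ (-((n + 1 : ℕ) : ℤ))) * t ^ (- -((n + 1 : ℕ) : ℤ)) = a ^ (M : ℤ) by group,
    Int.natAbs_neg, Int.natAbs_natCast] at l1
  refine ⟨g, fin.subset ?_⟩
  rintro v ⟨W, hW⟩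
  by_contra hv
  obtain ⟨d, hd, d1, d2⟩ := W.exists_boundary_dart _ hg hv
  have h2 := hW d.fst (Walk.dart_fst_mem_support_of_mem_darts W hd)
  obtain ⟨k, y, w, a1, a2, a3, a4⟩ := d1
  obtain ⟨e, he, e1 | e1⟩ := H.cases ((adj_iff S _ _).1 d.adj).2
  · obtain ⟨r, hr⟩ := Int.eq_ofNat_of_zero_le (show 0 ≤ ((n + 1 : ℕ) : ℤ) + k by omega)
    have big : T * (x : ℚ) ^ (n + 1) ≤ |y + e * (x : ℚ) ^ k| := by
      by_contra hh
      push Not at hh
      refine d2 ⟨k, _, w + e.natAbs, by rw [e1]; exact (H.mul_a a1 e).1, a2, ?_, hh⟩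
      have := a3.add_single e r (by omega)
      rwa [← pow_shift (n + 1) r k hr, ← mul_assoc, ← add_mul] at this
    have s1 : |(e : ℚ) * (x : ℚ) ^ k| ≤ (x : ℚ) ^ (n + 1) := by
      have : |(e : ℚ)| = 1 := by
        rw [← Int.cast_abs, Int.abs_eq_natAbs, he]; simp
      rw [abs_mul, this, one_mul, abs_of_pos (zpow_pos x0 k), ← zpow_natCast]
      exact zpow_le_zpow_right₀ x1 (by omega)
    obtain ⟨σ, hσ, s3⟩ : ∃ σ : ℤ, (σ = T ∨ σ = -T) ∧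
        |y + (-σ : ℤ) * (x : ℚ) ^ (n + 1)| < (2 : ℕ) * (x : ℚ) ^ (n + 1) := by
      rw [abs_lt] at a4
      rw [abs_le] at s1
      rcases le_abs'.1 big with h0 | h0
      · exact ⟨-T, Or.inr rfl, by rw [abs_lt]; push_cast; constructor <;> linarith⟩
      · exact ⟨T, Or.inl rfl, by rw [abs_lt]; push_cast; constructor <;> linarith⟩
    have r1 : R x (2 * (n + 1) + 1) ((y + (-σ : ℤ) * (x : ℚ) ^ (n + 1)) * (x : ℚ) ^ (n + 1))
        (w + (-σ).natAbs) := by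
      have := a3.add_single (-σ) (2 * (n + 1)) (by omega)
      convert this using 1
      ring
    obtain ⟨h, c1, -⟩ := H.upper (n + 1) (n + 1) _ k _ (by omega) (by omega)
      (by rw [← two_mul]; exact r1)
    have c2 : len S h ≤ C := hC ⟨h, ⟨k, _, _, c1, a2, r1, s3⟩, rfl⟩
    have c3 : d.fst = t ^ ((n + 1 : ℕ) : ℤ) * a ^ σ * t ^ (-((n + 1 : ℕ) : ℤ)) * h := by
      apply H.inj
      rw [map_mul, H.conj, c1, a1, zpow_natCast]
      ext <;> simp [mon_zero]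
    have c4 := len_mul S H.gen (t ^ ((n + 1 : ℕ) : ℤ) * a ^ σ * t ^ (-((n + 1 : ℕ) : ℤ))) h
    have c5 := H.len_conj (a ^ σ) ((n + 1 : ℕ) : ℤ)
    have c6 : len S (a ^ σ) ≤ len S (a ^ (T : ℤ)) := by
      rcases hσ with rfl | rfl
      · exact le_rfl
      · rw [zpow_neg]; exact len_inv S H.gen _
    rw [← c3] at c4
    rw [Int.natAbs_natCast] at c5
    omega
  · have big : n + 1 < (k + e).natAbs := by
      by_contra hh
      exact d2 ⟨_, y, w, by rw [e1]; exact (H.mul_t a1 e).1, by omega, a3, a4⟩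
    obtain ⟨g', b1, b2⟩ := H.cursor_exit hx hc hq hpq n T m2 _ k y w a1 (by omega) a3 a4
    have := hmax _ b1
    omega

theorem Mod.main' (H : Mod S a t φ) (hx : (x : ℚ) = p / q) (hc : Nat.Coprime p q)
    (hq : 1 ≤ q) (hpq : q < p) (D : ℕ) :
    ∃ g : G, {v | ∃ p : (Cay S).Walk g v, ∀ u ∈ p.support, len S g ≤ len S u + D}.Finite := by
  rcases eq_or_lt_of_le hq with rfl | h
  · refine Pool.Agent.H.MP_af8618_al.main (m := p) (by simpa using hx) hpq ?_ S H.gen H.mem φ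
      H.ha H.ht D
    apply H.inj
    have := H.conj 1 1
    simp only [zpow_one, zpow_neg] at this
    rw [this, ← zpow_natCast, H.phi_a, hx]
    simp
  · exact H.main hx hc h hpq D

end Pool.Agent.H.MP_6c6968_al
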