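import Pool.Agent.H.MP_6c6968_al.B

set_option autoImplicit false

namespace Pool.Agent.H.MP_6c6968_al

open Pool.Agent.H.MP_9b0338_al SimpleGraph

def AA (l : ℚˣ) : Subring ℚ := Subring.closure {(l : ℚ), (l : ℚ)⁻¹}

theorem zpow_mem_AA (l : ℚˣ) (k : ℤ) : (l : ℚ) ^ k ∈ AA l := by
  rcases Int.eq_nat_or_neg k with ⟨n, rfl | rfl⟩
  · rw [zpow_natCast]; exact pow_mem (Subring.subset_closure (by simp)) n
  · rw [zpow_neg, zpow_natCast, ← inv_pow]; exact pow_mem (Subring.subset_closure (by simp)) n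

def GA (l : ℚˣ) : Type := AA l × ℤ

variable {l : ℚˣ}

instance : Mul (GA l) :=
  ⟨fun u v => (⟨u.1.1 + (l : ℚ) ^ u.2 * v.1.1,
    add_mem u.1.2 (mul_mem (zpow_mem_AA l _) v.1.2)⟩, u.2 + v.2)⟩
instance : One (GA l) := ⟨(0, 0)⟩
instance : Inv (GA l) :=
  ⟨fun u => (⟨-((l : ℚ) ^ (-u.2) * u.1.1), neg_mem (mul_mem (zpow_mem_AA l _) u.1.2)⟩, -u.2)⟩

theorem GA.ext {u v : GA l} (h1 : u.1.1 = v.1.1) (h2 : u.2 = v.2) : u = v :=
  Prod.ext (Subtype.ext h1) h2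

@[simp] theorem mul_1 (u v : GA l) : (u * v).1.1 = u.1.1 + (l : ℚ) ^ u.2 * v.1.1 := rfl
@[simp] theorem mul_2 (u v : GA l) : (u * v).2 = u.2 + v.2 := rfl
@[simp] theorem one_1 : (1 : GA l).1.1 = 0 := rfl
@[simp] theorem one_2 : (1 : GA l).2 = 0 := rfl
@[simp] theorem inv_1 (u : GA l) : (u⁻¹).1.1 = -((l : ℚ) ^ (-u.2) * u.1.1) := rfl
@[simp] theorem inv_2 (u : GA l) : (u⁻¹).2 = -u.2 := rfl

instance : Group (GA l) := Group.ofLeftAxioms
  (by
    intro u v w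
    apply GA.ext
    · simp only [mul_1, mul_2, zpow_add₀ l.ne_zero]; ring
    · simp [add_assoc])
  (by intro u; apply GA.ext <;> simp)
  (by intro u; apply GA.ext <;> simp)

def ga (l : ℚˣ) : GA l := (1, 0)
def gt (l : ℚˣ) : GA l := (0, 1)

@[simp] theorem ga_1 : (ga l).1.1 = 1 := rfl
@[simp] theorem ga_2 : (ga l).2 = 0 := rfl
@[simp] theorem gt_1 : (gt l).1.1 = 0 := rfl
@[simp] theorem gt_2 : (gt l).2 = 1 := rfl

theorem gen (K : Subgroup (GA l)) (ha : ga l ∈ K) (ht : gt l ∈ K) : K = ⊤ := by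
  let B : AddSubgroup ℚ :=
    { carrier := {y | ∃ g ∈ K, g.1.1 = y ∧ g.2 = 0}
      add_mem' := by
        rintro _ _ ⟨g, h1, rfl, h2⟩ ⟨g', h1', rfl, h2'⟩
        exact ⟨g * g', K.mul_mem h1 h1', by simp [h2], by simp [h2, h2']⟩
      zero_mem' := ⟨1, K.one_mem, rfl, rfl⟩
      neg_mem' := by
        rintro _ ⟨g, h1, rfl, h2⟩
        exact ⟨g⁻¹, K.inv_mem h1, by simp [h2], by simp [h2]⟩ }
  have key : ∀ z ∈ AA l, ∀ y ∈ B, z * y ∈ B := by
    intro z hz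
    induction hz using Subring.closure_induction with
    | mem z hz =>
      rintro _ ⟨g, h1, rfl, h2⟩
      rcases hz with rfl | rfl
      · exact ⟨gt l * g * (gt l)⁻¹, K.mul_mem (K.mul_mem ht h1) (K.inv_mem ht), by simp,
          by simp [h2]⟩
      · exact ⟨(gt l)⁻¹ * g * gt l, K.mul_mem (K.mul_mem (K.inv_mem ht) h1) ht, by simp,
          by simp [h2]⟩
    | zero => intro y _; rw [zero_mul]; exact B.zero_mem
    | one => intro y hy; rwa [one_mul]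
    | add a b _ _ h1 h2 => intro y hy; rw [add_mul]; exact B.add_mem (h1 y hy) (h2 y hy)
    | neg a _ h1 => intro y hy; rw [neg_mul]; exact B.neg_mem (h1 y hy)
    | mul a b _ _ h1 h2 => intro y hy; rw [mul_assoc]; exact h1 _ (h2 y hy)
  have tk : ∀ k : ℤ, ((gt l) ^ k).1.1 = 0 ∧ ((gt l) ^ k).2 = k := by
    intro k
    induction k using Int.induction_on with
    | zero => simp
    | succ n ih => rw [zpow_add_one]; simp [-zpow_natCast, ih.1, ih.2]
    | pred n ih => rw [zpow_sub_one]; simp [-zpow_natCast, -zpow_neg, ih.1, ih.2, sub_eq_add_neg]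
  rw [eq_top_iff]
  rintro u -
  obtain ⟨g, h1, h2, h3⟩ := key u.1.1 u.1.2 1 ⟨ga l, ha, rfl, rfl⟩
  have : u = g * gt l ^ u.2 := by
    apply GA.ext
    · simp [h2, (tk _).1]
    · simp [h3, (tk _).2]
  rw [this]
  exact K.mul_mem h1 (K.zpow_mem ht _)

def phi1 (l : ℚˣ) : GA l →* Md l 1 :=
  MonoidHom.mk' (fun u => ⟨u.2, 0, u.1.1⟩) (by intro u v; ext <;> simp [mon_eq])

def phi2 (l : ℚˣ) : GA l →* Md l⁻¹ 1 :=
  MonoidHom.mk' (fun u => ⟨-u.2, 0, u.1.1⟩) (by intro u v; ext <;> simp [mon_eq, add_comm])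

def Gr (l : ℚˣ) : SimpleGraph (GA l) :=
  SimpleGraph.fromRel (fun u v => (v.1.1 = u.1.1 + (l : ℚ) ^ u.2 ∧ v.2 = u.2) ∨
    (v.1.1 = u.1.1 ∧ v.2 = u.2 + 1))

theorem eq_a (u v : GA l) : u⁻¹ * v = ga l ↔ (v.1.1 = u.1.1 + (l : ℚ) ^ u.2 ∧ v.2 = u.2) := by
  rw [inv_mul_eq_iff_eq_mul]
  constructor
  · rintro rfl; simp
  · intro h; apply GA.ext <;> simp [h.1, h.2]

theorem eq_t (u v : GA l) : u⁻¹ * v = gt l ↔ (v.1.1 = u.1.1 ∧ v.2 = u.2 + 1) := by
  rw [inv_mul_eq_iff_eq_mul]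
  constructor
  · rintro rfl; simp
  · intro h; apply GA.ext <;> simp [h.1, h.2]

theorem final (p q : ℕ) (hp : 1 ≤ p) (hq : 1 ≤ q) (hc : Nat.Coprime p q) (hne : p ≠ q)
    (l : ℚˣ) (hl : (l : ℚ) = p / q) (D : ℕ) : (Gr l).Connected ∧
    ∃ g : GA l, {v | ∃ W : (Gr l).Walk g v, ∀ u ∈ W.support,
      (Gr l).dist 1 g ≤ (Gr l).dist 1 u + D}.Finite := by
  classical
  rcases lt_or_gt_of_ne hne with h | h
  · have H : Mod ({ga l, (gt l)⁻¹} : Finset (GA l)) (ga l) (gt l)⁻¹ (phi2 l) :=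
      { gen := gen _ (Subgroup.subset_closure (by simp))
          (inv_mem_iff.1 (Subgroup.subset_closure (by simp)))
        mem := by intro z; simp
        inj := by
          intro u v huv
          obtain ⟨h1, -, h2⟩ := Md.mk.inj huv
          exact GA.ext h2 (neg_inj.1 h1)
        ha := rfl
        ht := by ext <;> simp [phi2] }
    have e : Gr l = Cay {ga l, (gt l)⁻¹} := by
      ext u v
      rw [adj_iff, H.mem, H.mem, Gr, fromRel_adj, ← eq_a, ← eq_a, ← eq_t, ← eq_t]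
      have e1 : u⁻¹ * v = (gt l)⁻¹ ↔ v⁻¹ * u = gt l := by
        rw [← inv_inj]; simp
      have e2 : v⁻¹ * u = (gt l)⁻¹ ↔ u⁻¹ * v = gt l := by
        rw [← inv_inj]; simp
      rw [e1, e2]
      tauto
    rw [e]
    exact ⟨conn _ H.gen, H.main' (p := q) (q := p) (by simp [hl]) hc.symm hp h D⟩
  · have H : Mod ({ga l, gt l} : Finset (GA l)) (ga l) (gt l) (phi1 l) :=
      { gen := gen _ (Subgroup.subset_closure (by simp)) (Subgroup.subset_closure (by simp))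
        mem := by intro z; simp
        inj := by
          intro u v huv
          obtain ⟨h1, -, h2⟩ := Md.mk.inj huv
          exact GA.ext h2 h1
        ha := rfl
        ht := rfl }
    have e : Gr l = Cay {ga l, gt l} := by
      ext u v
      rw [adj_iff, H.mem, H.mem, Gr, fromRel_adj, ← eq_a, ← eq_a, ← eq_t, ← eq_t]
    rw [e]
    exact ⟨conn _ H.gen, H.main' hl hc hq h D⟩

end Pool.Agent.H.MP_6c6968_al
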